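import Pool.Agent.MDB.AllII

/-!
# The mixed Doob-Burkholder inequality for Orlicz functions (MP_b44225_an, Q1)

For every Orlicz function `Phi` with Matuszewska-Orlicz indices `1 < p` and `q < ∞` there is a
constant `C`, depending only on `Phi`, such that for every semifinite von Neumann algebra `M`
(a von Neumann algebra on a complex Hilbert space with a normal semifinite faithful trace), every
filtration `(N n)` generating `M` with semifinite restrictions of the trace and trace preserving
conditional expectations `E n`, and every `ξ` in the Orlicz space `L_Phi (M)`, the conditional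
expectations `E n ξ` exist and are unique, and

`tr Phi(|ξ|) ≤ C (tr Phi(sup^+ dξ_n) + tr Phi(s^c(ξ)) + tr Phi(s^c(ξ^*)))`.

The algebra of measurable operators is the completion of `M` for the measure topology; the first
part of the statement says that this topology exists (its basis of neighbourhoods of zero is the
usual one, and it makes `M` a topological ring), so that the second part is not void.
-/

open scoped ENNReal NNReal Topology

namespace Pool.Agent.Results.MP_b44225_an.MixedDoobBurkholder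

open MDB

universe u

theorem result :
    (∀ (H : Type u) [NormedAddCommGroup H] [InnerProductSpace ℂ H] [CompleteSpace H]
      (𝓜 : TVN H), ∃ _ : UniformSpace (Mc 𝓜), IsTopologicalRing (Mc 𝓜) ∧
        IsUniformAddGroup (Mc 𝓜) ∧
        (𝓝 (0 : Mc 𝓜)).HasBasis (fun ε : ℝ => 0 < ε) (Nb 𝓜)) ∧
    ∀ (Phi : ℝ → ℝ) (p q : EReal), Orlicz Phi → IsLowerIndex Phi p → IsUpperIndex Phi q →
      1 < p → q < ⊤ → ∃ C : ℝ≥0,
        ∀ (H : Type u) [NormedAddCommGroup H] [InnerProductSpace ℂ H] [CompleteSpace H]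
          (𝓜 : TVN H) [UniformSpace (Mc 𝓜)] [IsTopologicalRing (Mc 𝓜)]
          [IsUniformAddGroup (Mc 𝓜)],
          (𝓝 (0 : Mc 𝓜)).HasBasis (fun ε : ℝ => 0 < ε) (Nb 𝓜) →
          ∀ (F : Filtr 𝓜) (ξ : Sm 𝓜), MemL Phi ξ →
            (∀ n, ∃! η : Sm 𝓜, IsCE F Phi n ξ η) ∧
            ∀ ξn : ℕ → Sm 𝓜, (∀ n, IsCE F Phi n ξ (ξn n)) →
              orl Phi ξ ≤ C * (supP Phi (dif ξn) + condC F Phi (dif ξn)
                + condC F Phi (dif (fun n => sst (ξn n)))) := by
  refine ⟨f_mt, ?_⟩
  intro Phi p q hPhi hp hq h1 h2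
  obtain ⟨C, hC⟩ := f_main Phi p q hPhi hp hq h1 h2
  obtain ⟨p1, q1, C0, hp1, hG⟩ := q_idx Phi p q hPhi hp hq h1 h2
  refine ⟨C, ?_⟩
  intro H _ _ _ 𝓜 _ _ _ hM F ξ hξ
  exact ⟨fun n => f_ce Phi p1 q1 C0 hG hp1 H 𝓜 hM F n ξ hξ,
    fun ξn hξn => hC H 𝓜 hM F ξ ξn hξ hξn⟩

end Pool.Agent.Results.MP_b44225_an.MixedDoobBurkholder
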